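import Pool.Agent.Helper18.SG.Goals

set_option autoImplicit false

namespace Pool.Agent.Helper31.SG

open Finset Pool.Agent.Helper18.SG

theorem mem_step (b : ℕ) (D : Finset (ℕ × ℕ))
    (hD : ∀ d ∈ D, b ≤ d.2 → (d.1 + 1, d.2 - b) ∈ D) (d : ℕ × ℕ) (hd : d ∈ D) :
    ∀ k : ℕ, b * k ≤ d.2 → (d.1 + k, d.2 - b * k) ∈ D := by
  intro k
  induction k with
  | zero =>
    intro _
    simpa using hd
  | succ k ih =>
    intro hk
    have h1 : b * k + b ≤ d.2 := by
      have : b * (k + 1) = b * k + b := by ring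
      omega
    have h2 := ih (by omega)
    have h3 := hD _ h2 (by simp only; omega)
    have e1 : d.1 + k + 1 = d.1 + (k + 1) := by ring
    have e2 : d.2 - b * k - b = d.2 - b * (k + 1) := by
      have : b * (k + 1) = b * k + b := by ring
      omega
    simp only at h3
    rw [e1, e2] at h3
    exact h3

theorem goalS3 : GoalS3 := by
  intro b D c hb hD
  refine ⟨fun e => ∑ d ∈ D, ∑ k ∈ range (d.2 / b + 1),
    if e = (d.1 + k, d.2 - b * k) then c d * ((d.2 / b).choose k : ℂ) else 0, ?_⟩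
  intro A _ _ x y
  have hR : ∑ e ∈ D, (∑ d ∈ D, ∑ k ∈ range (d.2 / b + 1),
      if e = (d.1 + k, d.2 - b * k) then c d * ((d.2 / b).choose k : ℂ) else 0) •
        ((y ^ b - x) ^ (e.2 / b) * x ^ e.1 * y ^ (e.2 % b)) =
      ∑ d ∈ D, ∑ k ∈ range (d.2 / b + 1), (c d * ((d.2 / b).choose k : ℂ)) •
        ((y ^ b - x) ^ (d.2 / b - k) * x ^ (d.1 + k) * y ^ (d.2 % b)) := by
    simp only [Finset.sum_smul]
    rw [Finset.sum_comm]
    refine Finset.sum_congr rfl fun d hd => ?_
    rw [Finset.sum_comm]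
    refine Finset.sum_congr rfl fun k hk => ?_
    have hk' : k ≤ d.2 / b := by
      have := Finset.mem_range.1 hk
      omega
    have hbk : b * k ≤ d.2 := by
      calc b * k ≤ b * (d.2 / b) := Nat.mul_le_mul_left _ hk'
        _ ≤ d.2 := Nat.mul_div_le _ _
    have hmem := mem_step b D hD d hd k hbk
    rw [Finset.sum_eq_single_of_mem _ hmem]
    · rw [if_pos rfl]
      have e1 : (d.2 - b * k) / b = d.2 / b - k := by
        rw [Nat.sub_mul_div]
      have e2 : (d.2 - b * k) % b = d.2 % b := Nat.sub_mul_mod hbk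
      simp only [e1, e2]
    · intro e _ hne
      rw [if_neg hne, zero_smul]
  rw [hR]
  refine Finset.sum_congr rfl fun d _ => ?_
  have hy : y ^ d.2 = (x + (y ^ b - x)) ^ (d.2 / b) * y ^ (d.2 % b) := by
    have : x + (y ^ b - x) = y ^ b := by ring
    rw [this, ← pow_mul, ← pow_add, Nat.div_add_mod]
  rw [hy, add_pow, Finset.sum_mul, Finset.mul_sum, Finset.smul_sum]
  refine Finset.sum_congr rfl fun k _ => ?_
  rw [mul_smul]
  congr 1
  rw [pow_add]
  have : ((d.2 / b).choose k : ℂ) • ((y ^ b - x) ^ (d.2 / b - k) * (x ^ d.1 * x ^ k) *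
      y ^ (d.2 % b)) = ((d.2 / b).choose k : A) * ((y ^ b - x) ^ (d.2 / b - k) *
        (x ^ d.1 * x ^ k) * y ^ (d.2 % b)) := by
    rw [Algebra.smul_def, map_natCast]
  rw [this]
  ring

end Pool.Agent.Helper31.SG
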